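import Mathlib

/-!
# Squares of the prime-counting function at products

We disprove the assertion that `π(xy)^2 ≤ π(x^2) π(y^2)` for all large integers `x, y`.

Idea: `x (x+2) = (x+1)^2 - 1` and `(x+1)^2` is never prime, so that
`π(x(x+2)) = π((x+1)^2)`.  If the inequality held for all large pairs `(x, x+2)`, the sequence
`s x = π(x^2)` would be log-convex from some point on.  As there are infinitely many primes,
some ratio `s (x+1) / s x` exceeds `1`, and log-convexity then forces exponential growth of `s`,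
against `s x ≤ x^2`.
-/

namespace Pool.Agent.Results.MP_93d35c_nt.MinculeteFalse

open Nat Filter

/-- A sequence of positive naturals that is log-convex from `a` on has increasing ratios. -/
lemma ratio_mono (s : ℕ → ℕ) (a : ℕ) (hpos : ∀ n, a ≤ n → 0 < s n)
    (hconv : ∀ n, a ≤ n → s (n + 1) ^ 2 ≤ s n * s (n + 2)) (m : ℕ) :
    s (a + m) * s (a + 1) ≤ s (a + m + 1) * s a := by
  induction m with
  | zero => simp [Nat.mul_comm]
  | succ m ih =>
    have h1 := hconv (a + m) (by omega)
    have hp : 0 < s (a + m) := hpos _ (by omega)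
    have hp' : 0 < s (a + m + 1) := hpos _ (by omega)
    have e1 : a + (m + 1) = a + m + 1 := by ring
    have e2 : a + (m + 1) + 1 = a + m + 2 := by ring
    rw [e1]
    have : a + m + 1 + 1 = a + m + 2 := by ring
    rw [this]
    -- multiply by `s (a+m)`
    have key : s (a + m) * (s (a + m + 1) * s (a + 1)) ≤ s (a + m) * (s (a + m + 2) * s a) := by
      calc s (a + m) * (s (a + m + 1) * s (a + 1))
          = s (a + m + 1) * (s (a + m) * s (a + 1)) := by ring
        _ ≤ s (a + m + 1) * (s (a + m + 1) * s a) := Nat.mul_le_mul_left _ ih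
        _ = s (a + m + 1) ^ 2 * s a := by ring
        _ ≤ (s (a + m) * s (a + m + 2)) * s a := Nat.mul_le_mul_right _ h1
        _ = s (a + m) * (s (a + m + 2) * s a) := by ring
    exact Nat.le_of_mul_le_mul_left key hp

/-- Exponential growth of a log-convex sequence. -/
lemma growth (s : ℕ → ℕ) (a : ℕ) (hpos : ∀ n, a ≤ n → 0 < s n)
    (hconv : ∀ n, a ≤ n → s (n + 1) ^ 2 ≤ s n * s (n + 2)) (m : ℕ) :
    s a * s (a + 1) ^ m ≤ s (a + m) * s a ^ m := by
  induction m with
  | zero => simp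
  | succ m ih =>
    have h := ratio_mono s a hpos hconv m
    calc s a * s (a + 1) ^ (m + 1) = (s a * s (a + 1) ^ m) * s (a + 1) := by ring
      _ ≤ (s (a + m) * s a ^ m) * s (a + 1) := Nat.mul_le_mul_right _ ih
      _ = (s (a + m) * s (a + 1)) * s a ^ m := by ring
      _ ≤ (s (a + m + 1) * s a) * s a ^ m := Nat.mul_le_mul_right _ h
      _ = s (a + (m + 1)) * s a ^ (m + 1) := by rw [← Nat.add_assoc]; ring

/-- No sequence of positive naturals with `s n ≤ n ^ 2` is log-convex from some point on and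
unbounded. -/
lemma no_logconvex (s : ℕ → ℕ) (n₀ : ℕ) (hpos : ∀ n, n₀ ≤ n → 0 < s n)
    (hle : ∀ n, s n ≤ n ^ 2) (hunb : ∀ B, ∃ n, B < s n) (hmono : Monotone s)
    (hconv : ∀ n, n₀ ≤ n → s (n + 1) ^ 2 ≤ s n * s (n + 2)) : False := by
  -- a strict increase after `n₀`
  have hex : ∃ a, n₀ ≤ a ∧ s a < s (a + 1) := by
    by_contra hcon
    push Not at hcon
    have hconst : ∀ m, s (n₀ + m) ≤ s n₀ := by
      intro m
      induction m with
      | zero => simp
      | succ m ih => exact (hcon (n₀ + m) (by omega)).trans ih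
    obtain ⟨n, hn⟩ := hunb (s n₀)
    rcases le_total n n₀ with h | h
    · exact absurd (hmono h) (by omega)
    · obtain ⟨m, rfl⟩ := Nat.exists_eq_add_of_le h
      exact absurd (hconst m) (by omega)
  obtain ⟨a, ha, hlt⟩ := hex
  have hposa : ∀ n, a ≤ n → 0 < s n := fun n hn => hpos n (ha.trans hn)
  have hconva : ∀ n, a ≤ n → s (n + 1) ^ 2 ≤ s n * s (n + 2) := fun n hn => hconv n (ha.trans hn)
  have hg := growth s a hposa hconva
  have hsa : (0 : ℝ) < s a := by exact_mod_cast hposa a le_rfl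
  set r : ℝ := (s (a + 1) : ℝ) / s a with hr
  have hr1 : 1 < r := by
    rw [hr, one_lt_div hsa]
    exact_mod_cast hlt
  -- `r ^ m ≤ (a + m) ^ 2`
  have hbound : ∀ m : ℕ, r ^ m ≤ ((a : ℝ) + m) ^ 2 := by
    intro m
    have h1 : (s a : ℝ) * (s (a + 1) : ℝ) ^ m ≤ (s (a + m) : ℝ) * (s a : ℝ) ^ m := by
      exact_mod_cast hg m
    have h2 : (s (a + m) : ℝ) ≤ ((a : ℝ) + m) ^ 2 := by exact_mod_cast hle (a + m)
    have h3 : (1 : ℝ) ≤ s a := by exact_mod_cast hposa a le_rfl
    rw [hr, div_pow, div_le_iff₀ (by positivity)]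
    calc (s (a + 1) : ℝ) ^ m = 1 * (s (a + 1) : ℝ) ^ m := by ring
      _ ≤ (s a : ℝ) * (s (a + 1) : ℝ) ^ m := by gcongr
      _ ≤ (s (a + m) : ℝ) * (s a : ℝ) ^ m := h1
      _ ≤ ((a : ℝ) + m) ^ 2 * (s a : ℝ) ^ m := by gcongr
  -- contradiction with exponential growth
  have ht : Tendsto (fun n : ℕ => (n : ℝ) ^ 2 / r ^ n) atTop (nhds 0) :=
    tendsto_pow_const_div_const_pow_of_one_lt 2 hr1
  have ht' : Tendsto (fun m : ℕ => (((m + a : ℕ) : ℝ)) ^ 2 / r ^ (m + a)) atTop (nhds 0) :=
    (tendsto_add_atTop_iff_nat (f := fun n : ℕ => (n : ℝ) ^ 2 / r ^ n) a).2 ht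
  have hra : (0 : ℝ) < 1 / r ^ a := by positivity
  have hev := (ht'.eventually (gt_mem_nhds hra)).exists
  obtain ⟨m, hm⟩ := hev
  have hb := hbound m
  have hrm : (0 : ℝ) < r ^ m := by positivity
  have hra' : (0 : ℝ) < r ^ a := by positivity
  rw [pow_add, div_lt_div_iff₀ (by positivity) (by positivity)] at hm
  push_cast at hm
  have : ((m : ℝ) + a) ^ 2 < r ^ m := by
    by_contra hcon
    push Not at hcon
    have : 1 * (r ^ m * r ^ a) ≤ ((m : ℝ) + a) ^ 2 * r ^ a := by
      rw [one_mul]; gcongr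
    linarith
  have e : ((m : ℝ) + a) ^ 2 = ((a : ℝ) + m) ^ 2 := by ring
  linarith

lemma primeCounting_le_self (n : ℕ) : primeCounting n ≤ n := by
  induction n with
  | zero => simp
  | succ n ih =>
    have h : primeCounting (n + 1) ≤ primeCounting n + 1 := by
      unfold primeCounting primeCounting'
      rw [Nat.count_succ _ (n + 1)]
      split_ifs <;> omega
    omega

/-- `π(x(x+2)) = π((x+1)^2)`. -/
lemma primeCounting_mul_add_two (x : ℕ) :
    primeCounting (x * (x + 2)) = primeCounting ((x + 1) ^ 2) := by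
  have e : (x + 1) ^ 2 = x * (x + 2) + 1 := by ring
  have hnp : ¬ Nat.Prime (x * (x + 2) + 1) := by
    rw [← e]
    exact Nat.Prime.not_prime_pow le_rfl
  rw [e]
  unfold primeCounting primeCounting'
  rw [Nat.count_succ _ (x * (x + 2) + 1)]
  simp [hnp]

/-- **Disproof of Minculete's inequality.**  For every `n₀` there are integers `x, y ≥ n₀`
(which can be taken with `y = x + 2`) with `π(xy)^2 > π(x^2) π(y^2)`. -/
theorem result : ∀ n₀ : ℕ, ∃ x y : ℕ, n₀ ≤ x ∧ n₀ ≤ y ∧ y = x + 2 ∧
    Nat.primeCounting (x ^ 2) * Nat.primeCounting (y ^ 2) < Nat.primeCounting (x * y) ^ 2 := by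
  intro n₀
  by_contra hcon
  have hmain : ∀ x, n₀ ≤ x →
      Nat.primeCounting (x * (x + 2)) ^ 2 ≤
        Nat.primeCounting (x ^ 2) * Nat.primeCounting ((x + 2) ^ 2) := by
    intro x hx
    by_contra h
    exact hcon ⟨x, x + 2, hx, by omega, rfl, not_le.mp h⟩
  refine no_logconvex (fun x => Nat.primeCounting (x ^ 2)) (n₀ + 2) ?_ ?_ ?_ ?_ ?_
  · intro n hn
    have h2 : 2 ≤ n ^ 2 := by nlinarith
    have : Nat.primeCounting 2 ≤ Nat.primeCounting (n ^ 2) := Nat.monotone_primeCounting h2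
    have h1 : Nat.primeCounting 2 = 1 := by decide
    show 0 < Nat.primeCounting (n ^ 2)
    omega
  · intro n
    show Nat.primeCounting (n ^ 2) ≤ n ^ 2
    exact primeCounting_le_self (n ^ 2)
  · intro B
    have := Nat.tendsto_primeCounting
    obtain ⟨n, hn⟩ := (this.eventually_gt_atTop B).exists
    refine ⟨n, lt_of_lt_of_le hn (Nat.monotone_primeCounting ?_)⟩
    nlinarith [Nat.le_self_pow (n := 2) (by norm_num) n]
  · intro x y hxy
    exact Nat.monotone_primeCounting (Nat.pow_le_pow_left hxy 2)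
  · intro n hn
    have h := hmain n (by omega)
    rw [primeCounting_mul_add_two] at h
    exact h

end Pool.Agent.Results.MP_93d35c_nt.MinculeteFalse
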